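import Mathlib

set_option autoImplicit false

/-!
Abstract Borel classes of subsets of `E × E × E` relative to a sequence of subsets of `E`.
-/

namespace Pool.Agent.H39.AbsBorel

open Set

/-- The representation of a group on `E`: the set of triples `(x, y, z)` with `x * y = z`. -/
def mulGraph (E : Type) [Group E] : Set (E × E × E) := {p | p.1 * p.2.1 = p.2.2}

/-- The Borel field over a sequence `A` of subsets of `E`: the σ-algebra generated by the sets
`A n`. -/
def BField {E : Type} (A : ℕ → Set E) : Set (Set E) :=
  {B | @MeasurableSet E (MeasurableSpace.generateFrom (range A)) B}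

/-- The classes of subsets of `E × E × E` with respect to `A`. Class `0` consists of the products
`B₁ × B₂ × B₃` with all `Bᵢ` in the Borel field over `A` and of the complements of such products;
class `k + 1` consists of the countable unions of members of class `k` and of the complements of
such unions. -/
def Cls {E : Type} (A : ℕ → Set E) : ℕ → Set (Set (E × E × E))
  | 0 => {Z | ∃ B₁ ∈ BField A, ∃ B₂ ∈ BField A, ∃ B₃ ∈ BField A,
      Z = B₁ ×ˢ B₂ ×ˢ B₃ ∨ Z = (B₁ ×ˢ B₂ ×ˢ B₃)ᶜ}
  | k + 1 => {Z | ∃ f : ℕ → Set (E × E × E), (∀ n, f n ∈ Cls A k) ∧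
      (Z = ⋃ n, f n ∨ Z = (⋃ n, f n)ᶜ)}

end Pool.Agent.H39.AbsBorel
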