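import Pool.Agent.H39.AbsBorel.Step
import Pool.Agent.H39.AbsBorel.Defs

set_option autoImplicit false
set_option linter.unusedSectionVars false

/-!
All groups of size at most the continuum are coded, and the abstract Borel class.
-/

namespace Pool.Agent.H39.AbsBorel

open Set Topology Cardinal

theorem mk_closure_lt {G : Type} [Group G] {κ : Cardinal.{0}} (hκ : ℵ₀ < κ) {S : Set G}
    (hS : #S < κ) : #(Subgroup.closure S) < κ := by
  rcases S.eq_empty_or_nonempty with rfl | hne
  · rw [Subgroup.closure_empty]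
    have : #(⊥ : Subgroup G) = 1 := by
      rw [Cardinal.eq_one_iff_unique]
      exact ⟨inferInstance, inferInstance⟩
    rw [this]
    exact lt_trans Cardinal.one_lt_aleph0 hκ
  · have := hne.to_subtype
    have h1 : (FreeGroup.lift (Subtype.val : S → G)).range = Subgroup.closure S := by
      rw [FreeGroup.range_lift_eq_closure, Subtype.range_coe]
    have h2 : #(Subgroup.closure S) ≤ #(FreeGroup S) := by
      rw [← h1]
      exact Cardinal.mk_le_of_surjective (MonoidHom.rangeRestrict_surjective _)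
    rw [Cardinal.mk_freeGroup] at h2
    exact lt_of_le_of_lt h2 (max_lt hS hκ)

theorem mk_real_seq : #(ℕ → ℕ) = 𝔠 := by
  rw [Cardinal.mk_arrow]
  simp only [Cardinal.lift_id, Cardinal.mk_nat]
  exact Cardinal.aleph0_power_aleph0

theorem coded_all (κ : Cardinal.{0}) : ∀ (G : Type) [Group G], #G = κ → κ ≤ 𝔠 → Coded G := by
  classical
  induction κ using WellFoundedLT.induction with
  | _ κ ih =>
  intro G _ hG hc
  rcases le_or_gt κ ℵ₀ with hk | hk
  · have : Countable G := by rw [← Cardinal.mk_le_aleph0_iff, hG]; exact hk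
    exact coded_of_countable G
  · have h1 : #G = #(#G).ord.ToType := by simp
    obtain ⟨e⟩ := Cardinal.eq.1 h1
    have h2 : #G ≤ #(ℕ → ℕ) := by rw [mk_real_seq, hG]; exact hc
    obtain ⟨φ⟩ := Cardinal.le_def _ _ |>.1 h2
    have h3 : ∀ x, #{g | e g ≤ x} < κ := by
      intro x
      have h4 : #{g | e g ≤ x} ≤ #(Iic x) := Cardinal.mk_le_of_injective
        (f := fun g => (⟨e g.1, g.2⟩ : Iic x)) (fun a b h => by
          apply Subtype.ext
          apply e.injective
          exact congrArg Subtype.val h)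
      have h5 : #(Iio x) < κ := by
        have := Cardinal.mk_Iio_lt x (by simp)
        simpa [hG] using this
      have h6 : #(Iic x) ≤ #(Iio x) + 1 := by
        have : Iic x = insert x (Iio x) := by
          ext y; simp only [mem_Iic, mem_insert_iff, mem_Iio]; exact le_iff_eq_or_lt
        rw [this]
        exact Cardinal.mk_insert_le
      refine lt_of_le_of_lt (h4.trans h6) ?_
      exact Cardinal.add_lt_of_lt hk.le h5 (lt_trans Cardinal.one_lt_aleph0 hk)
    have h4 : ∀ x, #(KK e x) < κ := fun x => mk_closure_lt hk (h3 x)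
    have h5 : ∀ x, Coded (KK e x) := fun x =>
      ih _ (h4 x) (KK e x) rfl ((h4 x).le.trans hc)
    choose t ht using h5
    apply coded_step e φ φ.injective (fun x g => if h : g ∈ KK e x then t x ⟨g, h⟩ else fun _ _ _ => 0)
    intro x g hg h hh k hk
    simp only [dif_pos hg, dif_pos hh, dif_pos hk]
    rw [ht x]
    simp [Subtype.ext_iff]

theorem Cls_succ {E : Type} {A : ℕ → Set E} {k : ℕ} {Z : Set (E × E × E)} (h : Z ∈ Cls A k) :
    Z ∈ Cls A (k + 1) :=
  ⟨fun _ => Z, fun _ => h, Or.inl (iUnion_const Z).symm⟩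

theorem exists_seq_class {E : Type} [Group E] (h : Coded E) :
    ∃ A : ℕ → Set E, mulGraph E ∈ Cls A 2 := by
  obtain ⟨t, ht⟩ := h
  obtain ⟨b, hb⟩ : ∃ b : ℕ → Set Tr, insert Set.univ (TopologicalSpace.countableBasis Tr) = range b :=
    ((TopologicalSpace.countable_countableBasis Tr).insert Set.univ).exists_eq_range
      ⟨Set.univ, mem_insert _ _⟩
  set A : ℕ → Set E := fun n => t ⁻¹' b n with hA
  have hbA : ∀ U ∈ TopologicalSpace.countableBasis Tr, t ⁻¹' U ∈ BField A := by
    intro U hU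
    have hU : U ∈ range b := hb ▸ mem_insert_of_mem _ hU
    obtain ⟨n, rfl⟩ := hU
    exact MeasurableSpace.measurableSet_generateFrom ⟨n, rfl⟩
  have hempty : (∅ : Set E) ∈ BField A :=
    @MeasurableSet.empty _ (MeasurableSpace.generateFrom (range A))
  let τ : E × E × E → Tr × Tr × Tr := fun q => (t q.1, t q.2.1, t q.2.2)
  have hbas := (TopologicalSpace.isBasis_countableBasis Tr).prod
    ((TopologicalSpace.isBasis_countableBasis Tr).prod
      (TopologicalSpace.isBasis_countableBasis Tr))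
  set BB : Set (Set (Tr × Tr × Tr)) := image2 (fun x1 x2 => x1 ×ˢ x2)
    (TopologicalSpace.countableBasis Tr) (image2 (fun x1 x2 => x1 ×ˢ x2)
      (TopologicalSpace.countableBasis Tr) (TopologicalSpace.countableBasis Tr)) with hBB
  have hcB : BB.Countable := (TopologicalSpace.countable_countableBasis Tr).image2
    ((TopologicalSpace.countable_countableBasis Tr).image2
      (TopologicalSpace.countable_countableBasis Tr) _) _
  have hop : ∀ O : Set (Tr × Tr × Tr), IsOpen O →
      ∃ f : ℕ → Set (E × E × E), (∀ n, f n ∈ Cls A 0) ∧ τ ⁻¹' O = ⋃ n, f n := by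
    intro O hO
    obtain ⟨S, hS, rfl⟩ := hbas.open_eq_sUnion hO
    have hSc : (insert ∅ S).Countable := (hcB.mono hS).insert _
    obtain ⟨f, hf⟩ := hSc.exists_eq_range ⟨∅, mem_insert _ _⟩
    refine ⟨fun n => τ ⁻¹' f n, fun n => ?_, ?_⟩
    · have hn : f n ∈ insert ∅ S := hf ▸ mem_range_self n
      rcases hn with h0 | hn
      · refine ⟨∅, hempty, ∅, hempty, ∅, hempty, Or.inl ?_⟩
        simp only [h0]; simp
      · obtain ⟨U, hU, _, ⟨V, hV, W, hW, rfl⟩, h1⟩ := hS hn
        refine ⟨t ⁻¹' U, hbA U hU, t ⁻¹' V, hbA V hV, t ⁻¹' W, hbA W hW, Or.inl ?_⟩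
        show τ ⁻¹' f n = _
        rw [← h1]
        rfl
    · rw [← preimage_iUnion]
      congr 1
      rw [← sUnion_range, ← hf, sUnion_insert, empty_union]
  obtain ⟨c, hc⟩ : ∃ c : ℕ → List (Fin 4) × ℕ × ℕ × ℕ, Function.Surjective c :=
    exists_surjective_nat _
  refine ⟨A, fun i => τ ⁻¹' {q | F (c i).1 (c i).2.1 (c i).2.2.1 (c i).2.2.2 q.1 q.2.1 q.2.2},
    fun i => ?_, Or.inl ?_⟩
  · obtain ⟨f, hf1, hf2⟩ := hop _ (isClosed_F (c i).1 (c i).2.1 (c i).2.2.1 (c i).2.2.2).isOpen_compl
    refine ⟨f, hf1, Or.inr ?_⟩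
    rw [← hf2, preimage_compl, compl_compl]
  · ext ⟨g, h, k⟩
    simp only [mulGraph, mem_ofPred_eq, mem_iUnion, mem_preimage]
    rw [← ht g h k]
    constructor
    · rintro ⟨c', n, m, p, hF⟩
      obtain ⟨i, hi⟩ := hc (c', n, m, p)
      exact ⟨i, by rw [hi]; exact hF⟩
    · rintro ⟨i, hi⟩
      exact ⟨_, _, _, _, hi⟩

theorem main (E : Type) [Group E] (hE : #E ≤ 𝔠) : ∃ A : ℕ → Set E, mulGraph E ∈ Cls A 2 :=
  exists_seq_class (coded_all _ E rfl hE)

end Pool.Agent.H39.AbsBorel
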