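import Mathlib

set_option autoImplicit false

/-!
Trees of reals and the universal relation coding multiplication.
-/

namespace Pool.Agent.H39.AbsBorel

open Set Topology

/-- Quaternary trees labelled by sequences of sequences of naturals. -/
abbrev Tr : Type := List (Fin 4) → ℕ → ℕ → ℕ

/-- Labels of the root. -/
def lab (x : Tr) (j : ℕ) : ℕ → ℕ := x [] j

/-- The `i`-th subtree. -/
def ch (x : Tr) (i : Fin 4) : Tr := fun a => x (i :: a)

/-- Building a tree. -/
def node (l : ℕ → ℕ → ℕ) (c : Fin 4 → Tr) : Tr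
  | [] => l
  | i :: a => c i a

@[simp] theorem lab_node (l : ℕ → ℕ → ℕ) (c : Fin 4 → Tr) (j : ℕ) : lab (node l c) j = l j := rfl
@[simp] theorem ch_node (l : ℕ → ℕ → ℕ) (c : Fin 4 → Tr) (i : Fin 4) : ch (node l c) i = c i := rfl

theorem continuous_lab (j : ℕ) : Continuous fun x : Tr => lab x j :=
  (continuous_apply j).comp (continuous_apply ([] : List (Fin 4)))

theorem continuous_lab' (j n : ℕ) : Continuous fun x : Tr => lab x j n :=
  (continuous_apply n).comp (continuous_lab j)

theorem continuous_ch (i : Fin 4) : Continuous fun x : Tr => ch x i :=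
  continuous_pi fun a => continuous_apply (i :: a)

/-- The closed pieces of the universal relation, indexed by certificates. -/
def F : List (Fin 4) → ℕ → ℕ → ℕ → Tr → Tr → Tr → Prop
  | [], n, m, p => fun x y z => lab x 0 0 = 0 ∧ lab y 0 0 = 0 ∧ lab z 0 0 = 0 ∧
      lab x 0 1 = n ∧ lab y 0 1 = m ∧ lab z 0 1 = p ∧ lab x 1 (Nat.pair n m) = p
  | i :: c, n, m, p => fun x y z =>
      if i = 0 then lab y 0 0 = 1 ∧ lab z 0 0 = 1 ∧ lab y 3 = lab z 3 ∧
        F c n m p x (ch y 0) (ch z 0)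
      else if i = 1 then lab x 0 0 = 1 ∧ lab z 0 0 = 1 ∧ lab x 4 = lab z 4 ∧
        F c n m p (ch x 1) y (ch z 1)
      else if i = 2 then lab x 0 0 = 1 ∧ lab y 0 0 = 1 ∧ lab x 5 = lab y 4 ∧
        F c n m p (ch x 2) z (ch y 1)
      else (lab x 0 0 = 1 ∧ lab y 0 0 = 1 ∧ lab z 0 0 = 1) ∧
        (lab x 2 = lab y 2 ∧ lab x 2 = lab z 2) ∧ F c n m p (ch x 3) (ch y 3) (ch z 3)

theorem isClosed_F (c : List (Fin 4)) (n m p : ℕ) :
    IsClosed {q : Tr × Tr × Tr | F c n m p q.1 q.2.1 q.2.2} := by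
  have hx : Continuous fun q : Tr × Tr × Tr => q.1 := continuous_fst
  have hy : Continuous fun q : Tr × Tr × Tr => q.2.1 := continuous_fst.comp continuous_snd
  have hz : Continuous fun q : Tr × Tr × Tr => q.2.2 := continuous_snd.comp continuous_snd
  have hk : ∀ (f : Tr × Tr × Tr → Tr) (_ : Continuous f) (j a v : ℕ),
      IsClosed {q : Tr × Tr × Tr | lab (f q) j a = v} := fun f hf j a v =>
    isClosed_eq ((continuous_lab' j a).comp hf) continuous_const
  have he : ∀ (f g : Tr × Tr × Tr → Tr) (_ : Continuous f) (_ : Continuous g) (j k : ℕ),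
      IsClosed {q : Tr × Tr × Tr | lab (f q) j = lab (g q) k} := fun f g hf hg j k =>
    isClosed_eq ((continuous_lab j).comp hf) ((continuous_lab k).comp hg)
  induction c with
  | nil =>
    exact (hk _ hx 0 0 0).inter ((hk _ hy 0 0 0).inter ((hk _ hz 0 0 0).inter
      ((hk _ hx 0 1 n).inter ((hk _ hy 0 1 m).inter ((hk _ hz 0 1 p).inter
        (hk _ hx 1 (Nat.pair n m) p))))))
  | cons i c ih =>
    by_cases h0 : i = 0
    · subst h0
      have hc : Continuous fun q : Tr × Tr × Tr => (q.1, ch q.2.1 0, ch q.2.2 0) :=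
        hx.prodMk (((continuous_ch 0).comp hy).prodMk ((continuous_ch 0).comp hz))
      exact (hk _ hy 0 0 1).inter ((hk _ hz 0 0 1).inter ((he _ _ hy hz 3 3).inter
        (ih.preimage hc)))
    by_cases h1 : i = 1
    · subst h1
      have hc : Continuous fun q : Tr × Tr × Tr => (ch q.1 1, q.2.1, ch q.2.2 1) :=
        ((continuous_ch 1).comp hx).prodMk (hy.prodMk ((continuous_ch 1).comp hz))
      exact (hk _ hx 0 0 1).inter ((hk _ hz 0 0 1).inter ((he _ _ hx hz 4 4).inter
        (ih.preimage hc)))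
    by_cases h2 : i = 2
    · subst h2
      have hc : Continuous fun q : Tr × Tr × Tr => (ch q.1 2, q.2.2, ch q.2.1 1) :=
        ((continuous_ch 2).comp hx).prodMk (hz.prodMk ((continuous_ch 1).comp hy))
      exact (hk _ hx 0 0 1).inter ((hk _ hy 0 0 1).inter ((he _ _ hx hy 5 4).inter
        (ih.preimage hc)))
    · have hc : Continuous fun q : Tr × Tr × Tr => (ch q.1 3, ch q.2.1 3, ch q.2.2 3) :=
        ((continuous_ch 3).comp hx).prodMk (((continuous_ch 3).comp hy).prodMk
          ((continuous_ch 3).comp hz))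
      have h3 : IsClosed {q : Tr × Tr × Tr | (lab q.1 0 0 = 1 ∧ lab q.2.1 0 0 = 1 ∧
          lab q.2.2 0 0 = 1) ∧ (lab q.1 2 = lab q.2.1 2 ∧ lab q.1 2 = lab q.2.2 2) ∧
          F c n m p (ch q.1 3) (ch q.2.1 3) (ch q.2.2 3)} :=
        ((hk _ hx 0 0 1).inter ((hk _ hy 0 0 1).inter (hk _ hz 0 0 1))).inter
          (((he _ _ hx hy 2 2).inter (he _ _ hx hz 2 2)).inter (ih.preimage hc))
      simpa only [F, if_neg h0, if_neg h1, if_neg h2] using h3

/-- The universal relation. -/
def D (x y z : Tr) : Prop := ∃ c n m p, F c n m p x y z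

end Pool.Agent.H39.AbsBorel
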