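import Pool.Agent.H39.AbsBorel.Code

set_option autoImplicit false
set_option linter.unusedSectionVars false

/-!
Every group of cardinality at most the continuum is coded by the universal relation.
-/

namespace Pool.Agent.H39.AbsBorel

open Set Topology Cardinal

/-- A coding of the multiplication. -/
def Coded (G : Type) [Group G] : Prop := ∃ t : G → Tr, ∀ g h k : G, D (t g) (t h) (t k) ↔ g * h = k

theorem coded_of_countable (G : Type) [Group G] [Countable G] : Coded G := by
  classical
  obtain ⟨idx, hidx⟩ := exists_injective_nat G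
  let tab : ℕ → ℕ := fun q =>
    if h : ∃ ab : G × G, q = Nat.pair (idx ab.1) (idx ab.2) then idx (h.choose.1 * h.choose.2)
    else 0
  have htab : ∀ a b : G, tab (Nat.pair (idx a) (idx b)) = idx (a * b) := by
    intro a b
    have h : ∃ ab : G × G, Nat.pair (idx a) (idx b) = Nat.pair (idx ab.1) (idx ab.2) :=
      ⟨(a, b), rfl⟩
    have h1 := h.choose_spec
    rw [Nat.pair_eq_pair] at h1
    have h2 := hidx h1.1
    have h3 := hidx h1.2
    simp only [tab, dif_pos h]
    rw [← h2, ← h3]
  let l : G → ℕ → ℕ → ℕ := fun g j n => if j = 0 then (if n = 1 then idx g else 0) else tab n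
  have l00 : ∀ g, l g 0 0 = 0 := fun g => by simp [l]
  have l01 : ∀ g, l g 0 1 = idx g := fun g => by simp [l]
  have l1 : ∀ g n, l g 1 n = tab n := fun g n => by simp [l]
  refine ⟨fun g => node (l g) (fun _ _ _ _ => 0), fun g h k => ⟨?_, fun e => ?_⟩⟩
  · rintro ⟨c, n, m, p, hF⟩
    cases c with
    | nil =>
      obtain ⟨-, -, -, h1, h2, h3, h4⟩ := hF
      rw [lab_node] at h1 h2 h3 h4
      rw [l01] at h1 h2 h3
      rw [l1, ← h1, ← h2, htab, ← h3] at h4
      exact hidx h4
    | cons i c =>
      exfalso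
      simp only [F, lab_node, l00] at hF
      split_ifs at hF <;> simp at hF
  · refine ⟨[], idx g, idx h, idx k, ?_⟩
    refine ⟨l00 g, l00 h, l00 k, l01 g, l01 h, l01 k, ?_⟩
    show l g 1 _ = _
    rw [l1, htab, e]

section Main

variable {G : Type} [Group G] {I : Type} [LinearOrder I] [WellFoundedLT I] (e : G ≃ I)

/-- Subgroup generated by the elements of index at most `x`. -/
def KK (x : I) : Subgroup G := Subgroup.closure {g | e g ≤ x}

/-- Subgroup generated by the elements of index less than `x`. -/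
def HH (x : I) : Subgroup G := Subgroup.closure {g | e g < x}

theorem KK_mono {x y : I} (h : x ≤ y) : KK e x ≤ KK e y :=
  Subgroup.closure_mono fun _ hg => le_trans hg h

theorem KK_le_HH {x y : I} (h : x < y) : KK e x ≤ HH e y :=
  Subgroup.closure_mono fun _ hg => lt_of_le_of_lt hg h

theorem HH_le_KK (x : I) : HH e x ≤ KK e x :=
  Subgroup.closure_mono fun _ hg => le_of_lt hg

theorem mem_HH {x : I} {g : G} : g ∈ HH e x ↔ g = 1 ∨ ∃ y < x, g ∈ KK e y := by
  constructor
  · intro h
    induction h using Subgroup.closure_induction with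
    | mem g hg => exact Or.inr ⟨e g, hg, Subgroup.subset_closure le_rfl⟩
    | one => exact Or.inl rfl
    | mul a b _ _ ha hb =>
      rcases ha with rfl | ⟨y, hy, ha⟩
      · rwa [one_mul]
      · rcases hb with rfl | ⟨y', hy', hb⟩
        · rw [mul_one]; exact Or.inr ⟨y, hy, ha⟩
        · exact Or.inr ⟨max y y', max_lt hy hy', mul_mem (KK_mono e (le_max_left _ _) ha)
            (KK_mono e (le_max_right _ _) hb)⟩
    | inv a _ ha =>
      rcases ha with rfl | ⟨y, hy, ha⟩
      · exact Or.inl inv_one
      · exact Or.inr ⟨y, hy, inv_mem ha⟩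
  · rintro (rfl | ⟨y, hy, h⟩)
    · exact one_mem _
    · exact KK_le_HH e hy h

theorem exists_rank (g : G) : ∃ x, g ∈ KK e x ∧ ∀ y, g ∈ KK e y → x ≤ y := by
  have h : {x | g ∈ KK e x}.Nonempty := ⟨e g, Subgroup.subset_closure le_rfl⟩
  have wf : WellFounded ((· < ·) : I → I → Prop) := wellFounded_lt
  exact ⟨wf.min _ h, wf.min_mem _ h, fun y hy => not_lt.1 (wf.not_lt_min {x | g ∈ KK e x} hy)⟩

/-- The rank of an element. -/
noncomputable def rk (g : G) : I := (exists_rank e g).choose

theorem mem_rk (g : G) : g ∈ KK e (rk e g) := (exists_rank e g).choose_spec.1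
theorem rk_le {g : G} {y : I} (h : g ∈ KK e y) : rk e g ≤ y := (exists_rank e g).choose_spec.2 y h

theorem rk_inv (g : G) : rk e g⁻¹ = rk e g :=
  le_antisymm (rk_le e (inv_mem (mem_rk e g)))
    (rk_le e (by simpa using inv_mem (mem_rk e g⁻¹)))

theorem notMem_HH {g : G} (hg : g ≠ 1) : g ∉ HH e (rk e g) := by
  intro h
  rcases (mem_HH e).1 h with h | ⟨y, hy, h⟩
  · exact hg h
  · exact absurd (rk_le e h) (not_le.2 hy)

theorem mem_HH_iff {g : G} {x : I} : g ∈ HH e x ↔ g = 1 ∨ rk e g < x := by
  rw [mem_HH]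
  constructor
  · rintro (h | ⟨y, hy, h⟩)
    · exact Or.inl h
    · exact Or.inr (lt_of_le_of_lt (rk_le e h) hy)
  · rintro (h | h)
    · exact Or.inl h
    · exact Or.inr ⟨_, h, mem_rk e g⟩

theorem mem_KK_iff {g : G} {x : I} : g ∈ KK e x ↔ rk e g ≤ x :=
  ⟨rk_le e, fun h => KK_mono e h (mem_rk e g)⟩

/-- Choice of a representative, depending only on the set. -/
noncomputable def rep (S : Set G) : G := by
  classical
  exact if h : S.Nonempty then h.choose else 1

theorem rep_mem {S : Set G} (h : S.Nonempty) : rep S ∈ S := by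
  classical
  unfold rep
  rw [dif_pos h]
  exact h.choose_spec

/-- Representative of the right coset. -/
noncomputable def rR (g : G) : G := rep {y | y * g⁻¹ ∈ HH e (rk e g)}

/-- Representative of the left coset. -/
noncomputable def rL (g : G) : G := rep {y | g⁻¹ * y ∈ HH e (rk e g)}

theorem rR_spec (g : G) : rR e g * g⁻¹ ∈ HH e (rk e g) :=
  rep_mem (S := {y | y * g⁻¹ ∈ HH e (rk e g)}) ⟨g, by simp⟩

theorem rL_spec (g : G) : g⁻¹ * rL e g ∈ HH e (rk e g) :=
  rep_mem (S := {y | g⁻¹ * y ∈ HH e (rk e g)}) ⟨g, by simp⟩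

theorem rR_eq {g h : G} (hr : rk e g = rk e h) (hgh : h * g⁻¹ ∈ HH e (rk e g)) :
    rR e g = rR e h := by
  have : {y | y * g⁻¹ ∈ HH e (rk e g)} = {y | y * h⁻¹ ∈ HH e (rk e h)} := by
    ext y
    simp only [mem_ofPred_eq]
    rw [← hr]
    constructor
    · intro hy
      have := mul_mem hy (inv_mem hgh)
      simpa [mul_assoc] using this
    · intro hy
      have := mul_mem hy hgh
      simpa [mul_assoc] using this
  unfold rR
  rw [this]

theorem rL_eq {g h : G} (hr : rk e g = rk e h) (hgh : g⁻¹ * h ∈ HH e (rk e g)) :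
    rL e g = rL e h := by
  have : {y | g⁻¹ * y ∈ HH e (rk e g)} = {y | h⁻¹ * y ∈ HH e (rk e h)} := by
    ext y
    simp only [mem_ofPred_eq]
    rw [← hr]
    constructor
    · intro hy
      have := mul_mem (inv_mem hgh) hy
      simpa [mul_assoc] using this
    · intro hy
      have := mul_mem hgh hy
      simpa [mul_assoc] using this
  unfold rL
  rw [this]

/-- `g = u g * rR g`. -/
noncomputable def u (g : G) : G := g * (rR e g)⁻¹
/-- `g = rL g * w g`. -/
noncomputable def w (g : G) : G := (rL e g)⁻¹ * g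

theorem u_mul (g : G) : u e g * rR e g = g := by simp [u]
theorem mul_w (g : G) : rL e g * w e g = g := by simp [w]

theorem u_mem (g : G) : u e g ∈ HH e (rk e g) := by
  have := inv_mem (rR_spec e g)
  simpa [u] using this

theorem w_mem (g : G) : w e g ∈ HH e (rk e g) := by
  have := inv_mem (rL_spec e g)
  simpa [w] using this

/-- Measure of an element. -/
noncomputable def ms (g : G) : WithBot I := by
  classical
  exact if g = 1 then ⊥ else ((rk e g : I) : WithBot I)

theorem ms_one : ms e 1 = ⊥ := by unfold ms; simp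
theorem ms_ne {g : G} (h : g ≠ 1) : ms e g = ((rk e g : I) : WithBot I) := by unfold ms; simp [h]

theorem ms_lt {g : G} {x : I} : ms e g < x ↔ g ∈ HH e x := by
  rw [mem_HH_iff]
  by_cases h : g = 1
  · subst h; simp [ms_one]
  · simp [ms_ne e h, h]

end Main

end Pool.Agent.H39.AbsBorel
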