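import Pool.Agent.H39.AbsBorel.Grp

set_option autoImplicit false
set_option linter.unusedSectionVars false

/-!
The inductive step: from smaller groups to an uncountable group.
-/

namespace Pool.Agent.H39.AbsBorel

open Set Topology Cardinal

section Step

variable {G : Type} [Group G] {I : Type} [LinearOrder I] [WellFoundedLT I] (e : G ≃ I)

theorem exists_code (tt : I → G → Tr) (l : G → ℕ → ℕ → ℕ) (b : Tr) :
    ∃ t : G → Tr, t 1 = b ∧ ∀ g ≠ 1, lab (t g) = l g ∧ ch (t g) 0 = t (u e g) ∧
      ch (t g) 1 = t (w e g) ∧ ch (t g) 2 = t (w e g⁻¹) ∧ ch (t g) 3 = tt (rk e g) g := by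
  classical
  have wf : WellFounded fun g h : G => ms e g < ms e h := InvImage.wf (ms e) wellFounded_lt
  have hu : ∀ g : G, g ≠ 1 → ms e (u e g) < ms e g := fun g hg => by
    rw [ms_ne e hg, ms_lt]; exact u_mem e g
  have hw : ∀ g : G, g ≠ 1 → ms e (w e g) < ms e g := fun g hg => by
    rw [ms_ne e hg, ms_lt]; exact w_mem e g
  have hw' : ∀ g : G, g ≠ 1 → ms e (w e g⁻¹) < ms e g := fun g hg => by
    rw [ms_ne e hg, ms_lt, ← rk_inv e g]; exact w_mem e g⁻¹
  let Φ : (g : G) → ((h : G) → ms e h < ms e g → Tr) → Tr := fun g r =>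
    if hg : g = 1 then b else
      node (l g) (fun i => if i = 0 then r _ (hu g hg) else if i = 1 then r _ (hw g hg)
        else if i = 2 then r _ (hw' g hg) else tt (rk e g) g)
  have hfix : ∀ g, wf.fix Φ g = Φ g (fun h _ => wf.fix Φ h) := fun g => wf.fix_eq Φ g
  refine ⟨wf.fix Φ, ?_, fun g hg => ?_⟩
  · rw [hfix]; simp [Φ]
  · rw [hfix]
    simp only [Φ, dif_neg hg]
    refine ⟨rfl, ?_, ?_, ?_, ?_⟩
    · rw [ch_node]; rfl
    · rw [ch_node]; rfl
    · rw [ch_node]; rfl
    · rw [ch_node]; rfl

variable (φ : G → ℕ → ℕ) (hφ : Function.Injective φ)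

/-- Pairing of two sequences. -/
def pr (a b : ℕ → ℕ) : ℕ → ℕ := fun n => Nat.pair (a n) (b n)

theorem pr_inj {a b a' b' : ℕ → ℕ} (h : pr a b = pr a' b') : a = a' ∧ b = b' := by
  constructor <;> funext n
  · exact (Nat.pair_eq_pair.1 (congrFun h n)).1
  · exact (Nat.pair_eq_pair.1 (congrFun h n)).2

/-- The labels of `g`. -/
noncomputable def lb (g : G) (j : ℕ) : ℕ → ℕ :=
  if j = 0 then fun _ => 1
  else if j = 2 then φ (e.symm (rk e g))
  else if j = 3 then pr (φ (e.symm (rk e g))) (φ (rR e g))
  else if j = 4 then pr (φ (e.symm (rk e g))) (φ (rL e g))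
  else if j = 5 then pr (φ (e.symm (rk e g))) (φ (rL e g⁻¹))
  else fun _ => 0

include hφ in
theorem coded_step (tt : I → G → Tr)
    (htt : ∀ x, ∀ g ∈ KK e x, ∀ h ∈ KK e x, ∀ k ∈ KK e x, D (tt x g) (tt x h) (tt x k) ↔ g * h = k) :
    Coded G := by
  classical
  obtain ⟨t, ht1, ht⟩ := exists_code e tt (lb e φ) (node (fun _ _ => 0) (fun _ _ _ _ => 0))
  have hk0 : lab (t 1) 0 0 = 0 := by rw [ht1]; rfl
  have hk1 : ∀ g, lab (t g) 0 0 = 1 → g ≠ 1 := by
    rintro g hg rfl
    rw [hk0] at hg
    exact absurd hg (by norm_num)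
  have hk0' : ∀ g, lab (t g) 0 0 = 0 → g = 1 := by
    intro g hg
    by_contra h
    rw [(ht g h).1] at hg
    simp [lb] at hg
  have hkn : ∀ g, g ≠ 1 → lab (t g) 0 0 = 1 := fun g hg => by
    rw [(ht g hg).1]; simp [lb]
  have hl2 : ∀ g, g ≠ 1 → lab (t g) 2 = φ (e.symm (rk e g)) := fun g hg => by
    rw [(ht g hg).1]; simp [lb]
  have hl3 : ∀ g, g ≠ 1 → lab (t g) 3 = pr (φ (e.symm (rk e g))) (φ (rR e g)) := fun g hg => by
    rw [(ht g hg).1]; simp [lb]
  have hl4 : ∀ g, g ≠ 1 → lab (t g) 4 = pr (φ (e.symm (rk e g))) (φ (rL e g)) := fun g hg => by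
    rw [(ht g hg).1]; simp [lb]
  have hl5 : ∀ g, g ≠ 1 → lab (t g) 5 = pr (φ (e.symm (rk e g))) (φ (rL e g⁻¹)) := fun g hg => by
    rw [(ht g hg).1]; simp [lb]
  refine ⟨t, fun g h k => ⟨?_, ?_⟩⟩
  · -- soundness
    rintro ⟨c, n, m, p, hF⟩
    induction c generalizing g h k with
    | nil =>
      obtain ⟨h1, h2, h3, -⟩ := hF
      rw [hk0' g h1, hk0' h h2, hk0' k h3, one_mul]
    | cons i c ih =>
      by_cases h0 : i = 0
      · subst h0
        obtain ⟨h1, h2, h3, h4⟩ : lab (t h) 0 0 = 1 ∧ lab (t k) 0 0 = 1 ∧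
          lab (t h) 3 = lab (t k) 3 ∧ F c n m p (t g) (ch (t h) 0) (ch (t k) 0) := hF
        have hh := hk1 h h1
        have hk := hk1 k h2
        rw [hl3 h hh, hl3 k hk] at h3
        have h5 := hφ (pr_inj h3).2
        rw [(ht h hh).2.1, (ht k hk).2.1] at h4
        have h6 := ih g _ _ h4
        rw [← u_mul e h, ← u_mul e k, ← mul_assoc, h6, h5]
      by_cases h0' : i = 1
      · subst h0'
        obtain ⟨h1, h2, h3, h4⟩ : lab (t g) 0 0 = 1 ∧ lab (t k) 0 0 = 1 ∧
          lab (t g) 4 = lab (t k) 4 ∧ F c n m p (ch (t g) 1) (t h) (ch (t k) 1) := hF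
        have hg := hk1 g h1
        have hk := hk1 k h2
        rw [hl4 g hg, hl4 k hk] at h3
        have h5 := hφ (pr_inj h3).2
        rw [(ht g hg).2.2.1, (ht k hk).2.2.1] at h4
        have h6 := ih _ h _ h4
        rw [← mul_w e g, ← mul_w e k, mul_assoc, h6, h5]
      by_cases h0'' : i = 2
      · subst h0''
        obtain ⟨h1, h2, h3, h4⟩ : lab (t g) 0 0 = 1 ∧ lab (t h) 0 0 = 1 ∧
          lab (t g) 5 = lab (t h) 4 ∧ F c n m p (ch (t g) 2) (t k) (ch (t h) 1) := hF
        have hg := hk1 g h1
        have hh := hk1 h h2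
        rw [hl5 g hg, hl4 h hh] at h3
        have h5 := hφ (pr_inj h3).2
        rw [(ht g hg).2.2.2.1, (ht h hh).2.2.1] at h4
        have h6 := ih _ k _ h4
        have h7 : g⁻¹ * k = h := by
          rw [← mul_w e g⁻¹, ← mul_w e h, mul_assoc, h6, h5]
        rw [← h7, mul_inv_cancel_left]
      · have h3 : (lab (t g) 0 0 = 1 ∧ lab (t h) 0 0 = 1 ∧ lab (t k) 0 0 = 1) ∧
            (lab (t g) 2 = lab (t h) 2 ∧ lab (t g) 2 = lab (t k) 2) ∧
            F c n m p (ch (t g) 3) (ch (t h) 3) (ch (t k) 3) := by
          simpa only [F, if_neg h0, if_neg h0', if_neg h0''] using hF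
        obtain ⟨⟨h1, h2, h4⟩, ⟨h5, h6⟩, h7⟩ := h3
        have hg := hk1 g h1
        have hh := hk1 h h2
        have hk := hk1 k h4
        rw [hl2 g hg, hl2 h hh] at h5
        rw [hl2 g hg, hl2 k hk] at h6
        have e1 : rk e g = rk e h := e.symm.injective (hφ h5)
        have e2 : rk e g = rk e k := e.symm.injective (hφ h6)
        rw [(ht g hg).2.2.2.2, (ht h hh).2.2.2.2, (ht k hk).2.2.2.2, ← e1, ← e2] at h7
        exact (htt (rk e g) g (mem_rk e g) h (e1 ▸ mem_rk e h) k (e2 ▸ mem_rk e k)).1
          ⟨c, n, m, p, h7⟩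
  · -- completeness
    have main : ∀ b : WithBot I, ∀ g h k, ms e g ≤ b → ms e h ≤ b → ms e k ≤ b → g * h = k →
        D (t g) (t h) (t k) := by
      intro b
      induction b using WellFoundedLT.induction with
      | _ b ih =>
      intro g h k hgb hhb hkb hm
      induction b using WithBot.recBotCoe with
      | bot =>
        have one_of : ∀ a, ms e a ≤ ⊥ → a = 1 := by
          intro a ha
          by_contra h1
          rw [ms_ne e h1] at ha
          simp at ha
        rw [one_of g hgb, one_of h hhb, one_of k hkb]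
        refine ⟨[], 0, 0, 0, ?_⟩
        rw [ht1]
        exact ⟨rfl, rfl, rfl, rfl, rfl, rfl, rfl⟩
      | coe x =>
        have hlt : ∀ {a : G}, ¬ ms e a = x → ms e a ≤ x → a ∈ HH e x := fun h1 h2 =>
          (ms_lt e).1 (lt_of_le_of_ne h2 h1)
        have hrk : ∀ {a : G}, ms e a = x → a ≠ 1 ∧ rk e a = x := by
          intro a ha
          have h1 : a ≠ 1 := by
            rintro rfl
            rw [ms_one] at ha
            exact absurd ha.symm (WithBot.coe_ne_bot)
          rw [ms_ne e h1] at ha
          exact ⟨h1, WithBot.coe_injective ha⟩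
        have hne : ∀ {a : G}, ms e a = x → a ∉ HH e x := fun h1 h2 =>
          absurd h1 ((ms_lt e).2 h2).ne
        by_cases hg : ms e g = x
        · by_cases hh : ms e h = x
          · by_cases hk : ms e k = x
            · obtain ⟨g1, g2⟩ := hrk hg
              obtain ⟨h1, h2⟩ := hrk hh
              obtain ⟨k1, k2⟩ := hrk hk
              obtain ⟨c, n, m, p, hF⟩ := (htt x g (g2 ▸ mem_rk e g) h (h2 ▸ mem_rk e h) k
                (k2 ▸ mem_rk e k)).2 hm
              refine ⟨3 :: c, n, m, p, ?_⟩
              have : (lab (t g) 0 0 = 1 ∧ lab (t h) 0 0 = 1 ∧ lab (t k) 0 0 = 1) ∧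
                  (lab (t g) 2 = lab (t h) 2 ∧ lab (t g) 2 = lab (t k) 2) ∧
                  F c n m p (ch (t g) 3) (ch (t h) 3) (ch (t k) 3) := by
                refine ⟨⟨hkn g g1, hkn h h1, hkn k k1⟩, ⟨?_, ?_⟩, ?_⟩
                · rw [hl2 g g1, hl2 h h1, g2, h2]
                · rw [hl2 g g1, hl2 k k1, g2, k2]
                · rw [(ht g g1).2.2.2.2, (ht h h1).2.2.2.2, (ht k k1).2.2.2.2, g2, h2, k2]
                  exact hF
              exact this
            · -- `k` is lower
              have hkH := hlt hk hkb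
              obtain ⟨g1, g2⟩ := hrk hg
              obtain ⟨h1, h2⟩ := hrk hh
              have hgi : g⁻¹ ≠ 1 := inv_ne_one.2 g1
              have e1 : rk e g⁻¹ = rk e h := by rw [rk_inv, g2, h2]
              have e2 : rL e g⁻¹ = rL e h := rL_eq e e1 (by
                rw [inv_inv, hm, rk_inv, g2]; exact hkH)
              have w1 : w e g⁻¹ ∈ HH e x := by
                have := w_mem e g⁻¹
                rwa [rk_inv, g2] at this
              have w2 : w e h ∈ HH e x := h2 ▸ w_mem e h
              have hlt' : max (ms e (w e g⁻¹)) (max (ms e k) (ms e (w e h))) < (x : WithBot I) :=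
                max_lt ((ms_lt e).2 w1) (max_lt ((ms_lt e).2 hkH) ((ms_lt e).2 w2))
              obtain ⟨c, n, m, p, hF⟩ := ih _ hlt' (w e g⁻¹) k (w e h) (le_max_left _ _)
                ((le_max_left _ _).trans (le_max_right _ _))
                ((le_max_right _ _).trans (le_max_right _ _)) (by
                  have h3 : g⁻¹ * k = h := by rw [← hm, inv_mul_cancel_left]
                  rw [← mul_w e g⁻¹, ← mul_w e h, e2, mul_assoc] at h3
                  exact mul_left_cancel h3)
              refine ⟨2 :: c, n, m, p, ?_⟩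
              have : lab (t g) 0 0 = 1 ∧ lab (t h) 0 0 = 1 ∧
                  lab (t g) 5 = lab (t h) 4 ∧ F c n m p (ch (t g) 2) (t k) (ch (t h) 1) := by
                refine ⟨hkn g g1, hkn h h1, ?_, ?_⟩
                · rw [hl5 g g1, hl4 h h1, e2, g2, h2]
                · rw [(ht g g1).2.2.2.1, (ht h h1).2.2.1]
                  exact hF
              exact this
          · -- `h` is lower
            have hhH := hlt hh hhb
            have hk : ms e k = x := by
              by_contra h1
              have := hlt h1 hkb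
              apply hne hg
              rw [← mul_inv_cancel_right g h, hm]
              exact mul_mem this (inv_mem hhH)
            obtain ⟨g1, g2⟩ := hrk hg
            obtain ⟨k1, k2⟩ := hrk hk
            have e2 : rL e g = rL e k := rL_eq e (by rw [g2, k2]) (by
              rw [← hm, inv_mul_cancel_left, g2]; exact hhH)
            have w1 : w e g ∈ HH e x := g2 ▸ w_mem e g
            have w2 : w e k ∈ HH e x := k2 ▸ w_mem e k
            have hlt' : max (ms e (w e g)) (max (ms e h) (ms e (w e k))) < (x : WithBot I) :=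
              max_lt ((ms_lt e).2 w1) (max_lt ((ms_lt e).2 hhH) ((ms_lt e).2 w2))
            obtain ⟨c, n, m, p, hF⟩ := ih _ hlt' (w e g) h (w e k) (le_max_left _ _)
              ((le_max_left _ _).trans (le_max_right _ _))
              ((le_max_right _ _).trans (le_max_right _ _)) (by
                have h3 := hm
                rw [← mul_w e g, ← mul_w e k, e2, mul_assoc] at h3
                exact mul_left_cancel h3)
            refine ⟨1 :: c, n, m, p, ?_⟩
            have : lab (t g) 0 0 = 1 ∧ lab (t k) 0 0 = 1 ∧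
                lab (t g) 4 = lab (t k) 4 ∧ F c n m p (ch (t g) 1) (t h) (ch (t k) 1) := by
              refine ⟨hkn g g1, hkn k k1, ?_, ?_⟩
              · rw [hl4 g g1, hl4 k k1, e2, g2, k2]
              · rw [(ht g g1).2.2.1, (ht k k1).2.2.1]
                exact hF
            exact this
        · have hgH := hlt hg hgb
          by_cases hh : ms e h = x
          · have hk : ms e k = x := by
              by_contra h1
              have := hlt h1 hkb
              apply hne hh
              rw [← inv_mul_cancel_left g h, hm]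
              exact mul_mem (inv_mem hgH) this
            obtain ⟨h1, h2⟩ := hrk hh
            obtain ⟨k1, k2⟩ := hrk hk
            have e2 : rR e h = rR e k := rR_eq e (by rw [h2, k2]) (by
              rw [← hm, mul_inv_cancel_right, h2]; exact hgH)
            have w1 : u e h ∈ HH e x := h2 ▸ u_mem e h
            have w2 : u e k ∈ HH e x := k2 ▸ u_mem e k
            have hlt' : max (ms e g) (max (ms e (u e h)) (ms e (u e k))) < (x : WithBot I) :=
              max_lt ((ms_lt e).2 hgH) (max_lt ((ms_lt e).2 w1) ((ms_lt e).2 w2))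
            obtain ⟨c, n, m, p, hF⟩ := ih _ hlt' g (u e h) (u e k) (le_max_left _ _)
              ((le_max_left _ _).trans (le_max_right _ _))
              ((le_max_right _ _).trans (le_max_right _ _)) (by
                have h3 := hm
                rw [← u_mul e h, ← u_mul e k, e2, ← mul_assoc] at h3
                exact mul_right_cancel h3)
            refine ⟨0 :: c, n, m, p, ?_⟩
            have : lab (t h) 0 0 = 1 ∧ lab (t k) 0 0 = 1 ∧
                lab (t h) 3 = lab (t k) 3 ∧ F c n m p (t g) (ch (t h) 0) (ch (t k) 0) := by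
              refine ⟨hkn h h1, hkn k k1, ?_, ?_⟩
              · rw [hl3 h h1, hl3 k k1, e2, h2, k2]
              · rw [(ht h h1).2.1, (ht k k1).2.1]
                exact hF
            exact this
          · have hhH := hlt hh hhb
            have hkH : k ∈ HH e x := hm ▸ mul_mem hgH hhH
            have hlt' : max (ms e g) (max (ms e h) (ms e k)) < (x : WithBot I) :=
              max_lt ((ms_lt e).2 hgH) (max_lt ((ms_lt e).2 hhH) ((ms_lt e).2 hkH))
            exact ih _ hlt' g h k (le_max_left _ _) ((le_max_left _ _).trans (le_max_right _ _))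
              ((le_max_right _ _).trans (le_max_right _ _)) hm
    exact main _ g h k (le_max_left _ _) ((le_max_left _ _).trans (le_max_right _ _))
      ((le_max_right _ _).trans (le_max_right _ _))

end Step

end Pool.Agent.H39.AbsBorel
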